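import Pool.Agent.W536.LM.Stm

/-!
# Hensel's lemma for quadratic polynomials over power series
-/

set_option autoImplicit false
set_option backward.isDefEq.respectTransparency.types false

namespace W481.LM

open Polynomial W536.LM

theorem monic_case (B Γ : PowerSeries ℝ) (ρ1 ρ2 : ℝ) (hne : ρ1 ≠ ρ2)
    (hB : PowerSeries.constantCoeff B = -(ρ1 + ρ2)) (hC : PowerSeries.constantCoeff Γ = ρ1 * ρ2) :
    ∃ r : PowerSeries ℝ, r ^ 2 + B * r + Γ = 0 ∧ PowerSeries.constantCoeff r = ρ1 := by
  have hH : HenselianRing (PowerSeries ℝ) (Ideal.span {(PowerSeries.X : PowerSeries ℝ)}) :=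
    IsAdicComplete.henselianRing _ _
  set f : (PowerSeries ℝ)[X] := X ^ 2 + C B * X + C Γ with hf
  have hmon : f.Monic := by
    rw [hf]
    monicity!
  have hev : ∀ z, f.eval z = z ^ 2 + B * z + Γ := by
    intro z
    simp [hf]
  have hder : ∀ z, f.derivative.eval z = 2 * z + B := by
    intro z
    simp [hf]
    left
    norm_num
  obtain ⟨a, ha, ha2⟩ := hH.is_henselian f hmon (PowerSeries.C ρ1) (by
      rw [Ideal.mem_span_singleton, PowerSeries.X_dvd_iff, hev]
      simp only [map_add, map_mul, map_pow, PowerSeries.constantCoeff_C, hB, hC]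
      ring) (by
      rw [hder]
      apply IsUnit.map
      rw [PowerSeries.isUnit_iff_constantCoeff]
      have h : PowerSeries.constantCoeff (2 * PowerSeries.C ρ1 + B) = ρ1 - ρ2 := by
        simp only [map_add, map_mul, PowerSeries.constantCoeff_C, hB, map_ofNat]
        ring
      rw [h]
      exact (sub_ne_zero.2 hne).isUnit)
  refine ⟨a, ?_, ?_⟩
  · rw [← hev]
    exact ha
  · rw [Ideal.mem_span_singleton, PowerSeries.X_dvd_iff] at ha2
    simp only [map_sub, PowerSeries.constantCoeff_C] at ha2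
    linarith

theorem t_HENS : S_HENS := by
  intro a b c ρ1 ρ2 ha hne hb hc
  have hu : IsUnit a := by
    rw [PowerSeries.isUnit_iff_constantCoeff]
    exact ha.isUnit
  obtain ⟨u, hu⟩ := hu
  have hu1 : a * (↑u⁻¹ : PowerSeries ℝ) = 1 := by
    rw [← hu]
    exact u.mul_inv
  have hc1 : PowerSeries.constantCoeff a * PowerSeries.constantCoeff (↑u⁻¹ : PowerSeries ℝ) = 1 := by
    rw [← map_mul, hu1, map_one]
  obtain ⟨r, h1, h2⟩ := monic_case (b * ↑u⁻¹) (c * ↑u⁻¹) ρ1 ρ2 hne
    (by rw [map_mul, hb]; linear_combination (-(ρ1 + ρ2)) * hc1)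
    (by rw [map_mul, hc]; linear_combination (ρ1 * ρ2) * hc1)
  refine ⟨r, -(b * ↑u⁻¹) - r, h2, ?_, ?_, ?_⟩
  · rw [map_sub, map_neg, map_mul, hb, h2]
    linear_combination (ρ1 + ρ2) * hc1
  · linear_combination (-b) * hu1
  · linear_combination (-c) * hu1 + a * h1

end W481.LM

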